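import Mathlib

/-!
Definitions for MP_4bd73f_an: bases, quasi-greedy bases, the lower democracy function, the
non-increasing rearrangement and the Lorentz sequence norms `d_{1,r}(w)`.
Basis vectors are indexed from `0`; weights and rearrangements are indexed from `1`.
-/

namespace Pool.Agent.H970Z.QG

variable {𝕜 : Type*} [RCLike 𝕜] {X : Type*} [NormedAddCommGroup X] [NormedSpace 𝕜 X]

/-- `(x n)` with the functionals `(xs n)` is a basis of `X`: dense linear span, biorthogonality,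
the functionals separate points, and `sup_n max (‖x n‖, ‖xs n‖) < ∞`. -/
structure IsBasis (x : ℕ → X) (xs : ℕ → (X →L[𝕜] 𝕜)) : Prop where
  dense : Dense (Submodule.span 𝕜 (Set.range x) : Set X)
  biorth : ∀ n k : ℕ, xs n (x k) = if n = k then 1 else 0
  total : ∀ f : X, (∀ n : ℕ, xs n f = 0) → f = 0
  bounded : ∃ M : ℝ, ∀ n : ℕ, ‖x n‖ ≤ M ∧ ‖xs n‖ ≤ M

/-- The finite set `A` is greedy for `f`. -/
def IsGreedySet (xs : ℕ → (X →L[𝕜] 𝕜)) (f : X) (A : Finset ℕ) : Prop :=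
  ∀ n ∈ A, ∀ k ∉ A, ‖xs k f‖ ≤ ‖xs n f‖

/-- The basis is quasi-greedy: all greedy sums `G_m f` (`m ≥ 1`) have norm at most `C ‖f‖`. -/
def IsQuasiGreedy (x : ℕ → X) (xs : ℕ → (X →L[𝕜] 𝕜)) : Prop :=
  ∃ C : ℝ, ∀ (f : X) (A : Finset ℕ), 1 ≤ A.card → IsGreedySet xs f A →
    ‖∑ n ∈ A, xs n f • x n‖ ≤ C * ‖f‖

/-- The lower democracy function: `φ_l 0 = 0` and, for `m ≥ 1`, `φ_l m` is the infimum of
`‖∑_{n ∈ A} ε_n x_n‖` over finite sets `A` with `|A| ≥ m` and scalars with `|ε_n| = 1`. -/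
noncomputable def lowerDem (𝕜 : Type*) [RCLike 𝕜] [NormedSpace 𝕜 X] (x : ℕ → X) (m : ℕ) : ℝ :=
  if m = 0 then 0 else
    sInf {t : ℝ | ∃ (A : Finset ℕ) (ε : ℕ → 𝕜), m ≤ A.card ∧ (∀ n, ‖ε n‖ = 1) ∧
      t = ‖∑ n ∈ A, ε n • x n‖}

/-- The weight `w_l`: `w_m = φ_l m - φ_l (m - 1)` for `m ≥ 1`. -/
noncomputable def lowerWeight (𝕜 : Type*) [RCLike 𝕜] [NormedSpace 𝕜 X] (x : ℕ → X) (m : ℕ) : ℝ :=
  lowerDem 𝕜 x m - lowerDem 𝕜 x (m - 1)

/-- The primitive sequence `s_m = w_1 + ⋯ + w_m` of a weight. -/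
noncomputable def primitive (w : ℕ → ℝ) (m : ℕ) : ℝ := ∑ k ∈ Finset.Icc 1 m, w k

/-- The `m`-th term (`m ≥ 1`) of the non-increasing rearrangement of `(|a_n|)` for a null sequence
`a`: the infimum of the `t ≥ 0` such that fewer than `m` indices `n` have `|a_n| > t`. -/
noncomputable def rearr (a : ℕ → 𝕜) (m : ℕ) : ℝ :=
  sInf {t : ℝ | 0 ≤ t ∧ {n : ℕ | t < ‖a n‖}.encard < (m : ℕ∞)}

/-- The norm of `d_{1,r}(w)`, with values in `[0, ∞]`: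
`(∑_{m ≥ 1} (a*_m)^r s_m^(r-1) w_m)^(1/r)`. -/
noncomputable def lorentzNorm (w : ℕ → ℝ) (r : ℝ) (a : ℕ → 𝕜) : ENNReal :=
  (∑' m : ℕ, ENNReal.ofReal
    (rearr a (m + 1) ^ r * primitive w (m + 1) ^ (r - 1) * w (m + 1))) ^ (1 / r)

end Pool.Agent.H970Z.QG
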