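import Mathlib

/-!
A lower power-type estimate for paths in a uniformly convex space whose averaged increments
dominate the increments over the middle interval.
-/

namespace Pool.Agent.H970Z.QG

open Finset

variable {Y : Type*} [NormedAddCommGroup Y] [NormedSpace ℝ Y]

/-- Dyadic averaging in a uniformly convex space. -/
theorem james [UniformConvexSpace Y] {θ : ℝ} (hθ : 0 < θ) :
    ∃ d : ℕ, ∀ (R : ℝ) (P : ℕ → Y), 0 < R → (∀ i < 2 ^ (d + 1), ‖P i‖ ≤ R) →
      (∀ j a : ℕ, a + 2 ^ (j + 1) ≤ 2 ^ (d + 1) →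
        θ * R * 2 ^ j ≤ ‖∑ i ∈ range (2 ^ j), (P (a + 2 ^ j + i) - P (a + i))‖) → False := by
  obtain ⟨δ, hδ, h⟩ := exists_forall_closed_ball_dist_add_le_two_sub Y hθ
  set ρ : ℝ := max (1 - δ / 2) (1 / 2) with hρ
  have hρ0 : 0 < ρ := lt_of_lt_of_le (by norm_num) (le_max_right _ _)
  have hρ1 : ρ < 1 := max_lt (by linarith) (by norm_num)
  have hρ2 : 2 - δ ≤ 2 * ρ := by
    have := le_max_left (1 - δ / 2) (1 / 2)
    linarith
  obtain ⟨d, hd⟩ := exists_pow_lt_of_lt_one (half_pos hθ) hρ1
  refine ⟨d, fun R P hR hP hsep => ?_⟩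
  have key : ∀ j a : ℕ, a + 2 ^ j ≤ 2 ^ (d + 1) →
      ‖∑ i ∈ range (2 ^ j), P (a + i)‖ ≤ R * 2 ^ j * ρ ^ j := by
    intro j
    induction j with
    | zero =>
      intro a ha
      simpa using hP a (by simpa using ha)
    | succ j ih =>
      intro a ha
      have e2 : 2 ^ (j + 1) = 2 ^ j + 2 ^ j := by ring
      have hp : 0 < 2 ^ j := by positivity
      have h1 := ih a (by omega)
      have h2 := ih (a + 2 ^ j) (by omega)
      have h3 := hsep j a ha
      set u := ∑ i ∈ range (2 ^ j), P (a + i) with hu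
      set v := ∑ i ∈ range (2 ^ j), P (a + 2 ^ j + i) with hv
      have hs : ∑ i ∈ range (2 ^ (j + 1)), P (a + i) = u + v := by
        rw [e2, sum_range_add, hv]
        simp only [add_assoc]
        rfl
      rw [sum_sub_distrib, ← hu, ← hv] at h3
      set s : ℝ := R * 2 ^ j * ρ ^ j with hsdef
      have hs0 : 0 < s := by positivity
      have hρj : ρ ^ j ≤ 1 := pow_le_one₀ hρ0.le hρ1.le
      have hv1 : ‖s⁻¹ • v‖ ≤ 1 := by
        rw [norm_smul, norm_inv, Real.norm_of_nonneg hs0.le, inv_mul_le_iff₀ hs0]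
        simpa using h2
      have hu1 : ‖s⁻¹ • u‖ ≤ 1 := by
        rw [norm_smul, norm_inv, Real.norm_of_nonneg hs0.le, inv_mul_le_iff₀ hs0]
        simpa using h1
      have h4 : θ ≤ ‖s⁻¹ • v - s⁻¹ • u‖ := by
        rw [← smul_sub, norm_smul, norm_inv, Real.norm_of_nonneg hs0.le, le_inv_mul_iff₀ hs0]
        refine le_trans ?_ h3
        have : 0 ≤ θ * R * 2 ^ j := by positivity
        calc s * θ = θ * R * 2 ^ j * ρ ^ j := by rw [hsdef]; ring
          _ ≤ θ * R * 2 ^ j * 1 := by gcongr
          _ = _ := by ring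
      have h5 := h hv1 hu1 h4
      rw [← smul_add, norm_smul, norm_inv, Real.norm_of_nonneg hs0.le, inv_mul_le_iff₀ hs0] at h5
      rw [hs, add_comm u v]
      calc ‖v + u‖ ≤ s * (2 - δ) := h5
        _ ≤ s * (2 * ρ) := by gcongr
        _ = _ := by rw [hsdef]; ring
  have e2 : 2 ^ (d + 1) = 2 ^ d + 2 ^ d := by ring
  have hp : 0 < 2 ^ d := by positivity
  have h1 := key d 0 (by omega)
  have h2 := key d (0 + 2 ^ d) (by omega)
  have h3 := hsep d 0 (by omega)
  rw [sum_sub_distrib] at h3
  have h4 := norm_sub_le (∑ i ∈ range (2 ^ d), P (0 + 2 ^ d + i)) (∑ i ∈ range (2 ^ d), P (0 + i))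
  have h5 : 0 < R * 2 ^ d := by positivity
  have h6 : R * 2 ^ d * ρ ^ d < R * 2 ^ d * (θ / 2) := mul_lt_mul_of_pos_left hd h5
  nlinarith

/-- The domination property of a path `S`. -/
def Dom (K : ℝ) (S : ℕ → Y) : Prop :=
  ∀ (N k l : ℕ) (p q : ℕ → ℕ), k ≤ l → (∀ i < N, p i ≤ k) → (∀ i < N, l ≤ q i) →
    N * ‖S l - S k‖ ≤ K * ‖∑ i ∈ range N, (S (q i) - S (p i))‖

omit [NormedSpace ℝ Y] in
theorem Dom.mono {K : ℝ} {S : ℕ → Y} (h : Dom K S) {p k l q : ℕ} (h1 : p ≤ k) (h2 : k ≤ l)
    (h3 : l ≤ q) : ‖S l - S k‖ ≤ K * ‖S q - S p‖ := by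
  simpa using h 1 k l (fun _ => p) (fun _ => q) h2 (fun _ _ => h1) (fun _ _ => h3)

/-- The lower power-type estimate. -/
theorem lower_estimate [UniformConvexSpace Y] {K : ℝ} (hK : 0 < K) :
    ∃ (r : ℕ) (A : ℝ), 1 ≤ r ∧ 0 ≤ A ∧ ∀ S : ℕ → Y, Dom K S → ∀ p q : ℕ, p ≤ q →
      ∑ i ∈ Ico p q, ‖S (i + 1) - S i‖ ^ r ≤ A * ‖S q - S p‖ ^ r := by
  obtain ⟨d, hd⟩ := james (Y := Y) (θ := 1 / (2 * K ^ 2)) (by positivity)
  set L : ℕ := 2 ^ (d + 1) with hL
  set r : ℕ := d + 2 with hr
  set A : ℝ := 2 * L * K ^ r with hA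
  have hA0 : 0 ≤ A := by positivity
  refine ⟨r, A, by omega, hA0, fun S hS => ?_⟩
  suffices H : ∀ n p q : ℕ, p ≤ q → q - p ≤ n →
      ∑ i ∈ Ico p q, ‖S (i + 1) - S i‖ ^ r ≤ A * ‖S q - S p‖ ^ r from
    fun p q hpq => H _ p q hpq le_rfl
  intro n
  induction n with
  | zero =>
    intro p q hpq hn
    have : q = p := by omega
    subst this
    simp only [Ico_self, sum_empty]
    positivity
  | succ n ih =>
    intro p q hpq hn
    set M := ‖S q - S p‖ with hM
    rcases (norm_nonneg (S q - S p)).eq_or_lt with hM0 | hM0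
    · have : ∀ i ∈ Ico p q, ‖S (i + 1) - S i‖ ^ r = 0 := by
        intro i hi
        rw [mem_Ico] at hi
        have h1 := hS.mono hi.1 (Nat.le_succ i) hi.2
        rw [← hM0, mul_zero] at h1
        have h2 : ‖S (i + 1) - S i‖ = 0 := le_antisymm h1 (norm_nonneg _)
        rw [h2]
        exact zero_pow (by omega)
      rw [sum_congr rfl this]
      simp only [sum_const_zero]
      positivity
    rw [← hM] at hM0
    have sub : ∀ (m p' : ℕ), p ≤ p' → p' ≤ q →
        (¬ ∃ k : ℕ → ℕ, k 0 = p' ∧ k m ≤ q ∧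
          ∀ i < m, k i < k (i + 1) ∧ M / 2 < ‖S (k (i + 1)) - S (k i)‖) →
        ∑ i ∈ Ico p' q, ‖S (i + 1) - S i‖ ^ r ≤ m * (A * (M / 2) ^ r + (K * M) ^ r) := by
      intro m
      induction m with
      | zero =>
        intro p' _ h2 h3
        exact absurd ⟨fun _ => p', rfl, h2, fun i hi => absurd hi (Nat.not_lt_zero i)⟩ h3
      | succ m ihm =>
        intro p' h1 h2 h3
        have hpos : 0 ≤ A * (M / 2) ^ r + (K * M) ^ r := by positivity
        by_cases hex : ∃ j, p' < j ∧ j ≤ q ∧ M / 2 < ‖S j - S p'‖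
        · classical
          set j := Nat.find hex with hj
          obtain ⟨hj1, hj2, hj3⟩ := Nat.find_spec hex
          rw [← hj] at hj1 hj2 hj3
          obtain ⟨j', hj'⟩ : ∃ j', j = j' + 1 := ⟨j - 1, by omega⟩
          have hsmall : ‖S j' - S p'‖ ≤ M / 2 := by
            rcases (show p' ≤ j' by omega).eq_or_lt with he | hlt
            · rw [he, sub_self, norm_zero]; positivity
            · have := Nat.find_min hex (show j' < Nat.find hex by rw [← hj]; omega)
              by_contra hc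
              exact this ⟨hlt, by omega, not_le.mp hc⟩
          have e1 : ∑ i ∈ Ico p' q, ‖S (i + 1) - S i‖ ^ r =
              ∑ i ∈ Ico p' j', ‖S (i + 1) - S i‖ ^ r + ‖S (j' + 1) - S j'‖ ^ r +
                ∑ i ∈ Ico j q, ‖S (i + 1) - S i‖ ^ r := by
            rw [← sum_Ico_succ_top (show p' ≤ j' by omega), ← hj',
              sum_Ico_consecutive _ hj1.le hj2]
          have b1 : ∑ i ∈ Ico p' j', ‖S (i + 1) - S i‖ ^ r ≤ A * (M / 2) ^ r := by
            refine (ih p' j' (by omega) (by omega)).trans ?_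
            gcongr
          have b2 : ‖S (j' + 1) - S j'‖ ^ r ≤ (K * M) ^ r := by
            have := hS.mono (show p ≤ j' by omega) (Nat.le_succ j') (show j' + 1 ≤ q by omega)
            gcongr
          have b3 := ihm j (by omega) hj2 (by
            rintro ⟨k, hk0, hkm, hk⟩
            refine h3 ⟨fun i => Nat.rec p' (fun i _ => k i) i, rfl, hkm, fun i hi => ?_⟩
            cases i with
            | zero =>
              refine ⟨?_, ?_⟩
              · show p' < k 0
                omega
              · show M / 2 < ‖S (k 0) - S p'‖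
                rw [hk0]; exact hj3
            | succ i => exact hk i (by omega))
          rw [e1]
          push_cast
          linarith
        · have hsmall : ‖S q - S p'‖ ≤ M / 2 := by
            rcases h2.eq_or_lt with he | hlt
            · rw [he, sub_self, norm_zero]; positivity
            · by_contra hc
              exact hex ⟨q, hlt, le_rfl, not_le.mp hc⟩
          have hne : p < p' := by
            rcases h1.eq_or_lt with he | hlt
            · rw [← he, ← hM] at hsmall; linarith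
            · exact hlt
          have b1 : ∑ i ∈ Ico p' q, ‖S (i + 1) - S i‖ ^ r ≤ A * (M / 2) ^ r := by
            refine (ih p' q h2 (by omega)).trans ?_
            gcongr
          have b2 : 0 ≤ (K * M) ^ r := by positivity
          have b3 : (0 : ℝ) ≤ m * (A * (M / 2) ^ r + (K * M) ^ r) := by positivity
          push_cast
          linarith
    have hno : ¬ ∃ k : ℕ → ℕ, k 0 = p ∧ k L ≤ q ∧
          ∀ i < L, k i < k (i + 1) ∧ M / 2 < ‖S (k (i + 1)) - S (k i)‖ := by
      rintro ⟨k, hk0, hkL, hk⟩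
      have hmono : ∀ i j, i ≤ j → j ≤ L → k i ≤ k j := by
        intro i j hij
        induction j, hij using Nat.le_induction with
        | base => intro _; exact le_rfl
        | succ j hij ihj =>
          intro hj
          exact (ihj (by omega)).trans (hk j (by omega)).1.le
      refine hd (K * M) (fun i => S (k i) - S p) (by positivity) (fun i hi => ?_)
        (fun j a hja => ?_)
      · refine hS.mono le_rfl ?_ ?_
        · rw [← hk0]; exact hmono 0 i (Nat.zero_le _) hi.le
        · exact (hmono i L hi.le le_rfl).trans hkL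
      · have e2 : 2 ^ (j + 1) = 2 ^ j + 2 ^ j := by ring
        have hp : 0 < 2 ^ j := by positivity
        obtain ⟨b, hb⟩ : ∃ b, a + 2 ^ j = b + 1 := ⟨a + 2 ^ j - 1, by omega⟩
        have h1 := hS (2 ^ j) (k b) (k (b + 1)) (fun i => k (a + i)) (fun i => k (a + 2 ^ j + i))
          (hk b (by omega)).1.le (fun i hi => hmono _ _ (by omega) (by omega))
          (fun i hi => hmono _ _ (by omega) (by omega))
        have h2 := (hk b (by omega)).2
        simp only [sub_sub_sub_cancel_right]
        push_cast at h1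
        have h3 : (0 : ℝ) < 2 ^ j := by positivity
        have h4 : 1 / (2 * K ^ 2) * (K * M) * 2 ^ j = K⁻¹ * (2 ^ j * (M / 2)) := by
          field_simp
        rw [h4, inv_mul_le_iff₀ hK]
        refine le_trans ?_ h1
        gcongr
    have hfin := sub L p le_rfl hpq hno
    refine hfin.trans (le_of_eq ?_)
    have h2 : (L : ℝ) = 2 ^ (d + 1) := by rw [hL]; push_cast; ring
    rw [hA, h2, hr, div_pow, mul_pow]
    field_simp
    ring

end Pool.Agent.H970Z.QG
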