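import Pool.Agent.H970Z.QG.James

/-!
Soft thresholding for a finite quasi-greedy family, and the domination property of its path.
-/

namespace Pool.Agent.H970Z.QG

open Finset

variable {Y : Type*} [NormedAddCommGroup Y] [NormedSpace ℝ Y]

/-- Layer-cake bound. -/
theorem layer (B : Finset ℕ) (w : ℕ → Y) (R : ℝ) (hR : 0 ≤ R) :
    ∀ (N : ℕ) (m : ℕ → ℝ) (μ : ℝ), 0 ≤ μ → (B.filter (fun n => 0 < m n)).card ≤ N →
      (∀ n ∈ B, 0 ≤ m n) → (∀ n ∈ B, m n ≤ μ) →
      (∀ s : ℝ, 0 ≤ s → ‖∑ n ∈ B.filter (fun n => s < m n), w n‖ ≤ R) →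
      ‖∑ n ∈ B, m n • w n‖ ≤ μ * R := by
  intro N
  induction N with
  | zero =>
    intro m μ hμ hc h0 h1 hs
    have : ∀ n ∈ B, m n • w n = 0 := by
      intro n hn
      have hn' : ¬ 0 < m n := by
        intro h
        have : n ∈ B.filter (fun n => 0 < m n) := mem_filter.mpr ⟨hn, h⟩
        have := card_pos.mpr ⟨n, this⟩
        omega
      rw [le_antisymm (not_lt.mp hn') (h0 n hn), zero_smul]
    rw [sum_congr rfl this]
    simp only [sum_const_zero, norm_zero]
    positivity
  | succ N ih =>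
    intro m μ hμ hc h0 h1 hs
    by_cases hne : (B.filter (fun n => 0 < m n)).card ≤ N
    · exact ih m μ hμ hne h0 h1 hs
    have hne' : (B.filter (fun n => 0 < m n)).Nonempty := card_pos.mp (by omega)
    obtain ⟨n₀, hn₀, hmin⟩ := exists_min_image _ m hne'
    rw [mem_filter] at hn₀
    set m' : ℕ → ℝ := fun n => if 0 < m n then m n - m n₀ else 0 with hm'
    have hle : ∀ n ∈ B, 0 < m n → m n₀ ≤ m n := fun n hn h => hmin n (mem_filter.mpr ⟨hn, h⟩)
    have hμ' : 0 ≤ μ - m n₀ := sub_nonneg.mpr (h1 n₀ hn₀.1)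
    have key := ih m' (μ - m n₀) hμ' (by
        have hsub : B.filter (fun n => 0 < m' n) ⊆ (B.filter (fun n => 0 < m n)).erase n₀ := by
          intro n hn
          rw [mem_filter] at hn
          rw [mem_erase, mem_filter]
          have h2 := hn.2
          simp only [hm'] at h2
          split_ifs at h2 with h3
          · refine ⟨?_, hn.1, h3⟩
            rintro rfl
            simp at h2
          · exact absurd h2 (lt_irrefl _)
        have := card_le_card hsub
        rw [card_erase_of_mem (mem_filter.mpr hn₀)] at this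
        omega)
      (fun n hn => by
        simp only [hm']
        split_ifs with h3
        · exact sub_nonneg.mpr (hle n hn h3)
        · exact le_rfl)
      (fun n hn => by
        simp only [hm']
        split_ifs with h3
        · linarith [h1 n hn]
        · exact hμ')
      (fun s hs0 => by
        have : B.filter (fun n => s < m' n) = B.filter (fun n => s + m n₀ < m n) := by
          refine filter_congr (fun n hn => ?_)
          simp only [hm']
          split_ifs with h3
          · constructor <;> intro h <;> linarith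
          · constructor
            · intro h; linarith
            · intro h; linarith [hn₀.2]
        rw [this]
        exact hs _ (by linarith [hn₀.2]))
    have e : ∑ n ∈ B, m n • w n =
        m n₀ • ∑ n ∈ B.filter (fun n => 0 < m n), w n + ∑ n ∈ B, m' n • w n := by
      rw [smul_sum, sum_filter, ← sum_add_distrib]
      refine sum_congr rfl (fun n hn => ?_)
      simp only [hm']
      split_ifs with h3
      · rw [← add_smul]; congr 1; ring
      · rw [le_antisymm (not_lt.mp h3) (h0 n hn)]; simp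
    rw [e]
    refine (norm_add_le _ _).trans ?_
    rw [norm_smul, Real.norm_of_nonneg hn₀.2.le]
    have h3 := hs 0 le_rfl
    have h4 : m n₀ * ‖∑ n ∈ B.filter (fun n => 0 < m n), w n‖ ≤ m n₀ * R := by
      gcongr
      exact hn₀.2.le
    linarith

/-- The quasi-greedy inequality for non-negative real combinations of a finite family. -/
def FinQG (C : ℝ) (B : Finset ℕ) (v : ℕ → Y) : Prop :=
  ∀ c : ℕ → ℝ, (∀ n ∈ B, 0 ≤ c n) → ∀ A ⊆ B, (∀ n ∈ A, ∀ k ∈ B, k ∉ A → c k ≤ c n) →
    ‖∑ n ∈ A, c n • v n‖ ≤ C * ‖∑ n ∈ B, c n • v n‖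

theorem soft {C : ℝ} (hC : 0 ≤ C) {B : Finset ℕ} {v : ℕ → Y} (h : FinQG C B v) (c : ℕ → ℝ)
    (hc : ∀ n ∈ B, 0 ≤ c n) {τ : ℝ} (hτ : 0 ≤ τ) :
    ‖∑ n ∈ B, max (c n - τ) 0 • v n‖ ≤ C * ‖∑ n ∈ B, c n • v n‖ := by
  set m : ℕ → ℝ := fun n => max (c n - τ) 0 / c n with hm
  have hm0 : ∀ n ∈ B, 0 ≤ m n := fun n hn => div_nonneg (le_max_right _ _) (hc n hn)
  have hm1 : ∀ n ∈ B, m n ≤ 1 := fun n hn =>
    div_le_one_of_le₀ (max_le (by linarith) (hc n hn)) (hc n hn)
  have hmono : ∀ n ∈ B, ∀ k ∈ B, c n ≤ c k → m n ≤ m k := by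
    intro n hn k hk hnk
    by_cases h1 : c n ≤ τ
    · have : m n = 0 := by simp only [hm]; rw [max_eq_right (by linarith), zero_div]
      rw [this]; exact hm0 k hk
    · have h1 := not_le.mp h1
      have h2 : 0 < c n := lt_of_le_of_lt hτ h1
      have h3 : 0 < c k := lt_of_lt_of_le h2 hnk
      simp only [hm]
      rw [max_eq_left (by linarith), max_eq_left (by linarith), div_le_div_iff₀ h2 h3]
      nlinarith
  have key := layer B (fun n => c n • v n) (C * ‖∑ n ∈ B, c n • v n‖) (by positivity) _ m 1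
    zero_le_one le_rfl hm0 hm1 (fun s _ => by
      refine h c hc _ (filter_subset _ _) (fun n hn k hk hkA => ?_)
      rw [mem_filter] at hn hkA
      by_contra hlt
      have := hmono n hn.1 k hk (not_le.mp hlt).le
      exact hkA ⟨hk, lt_of_lt_of_le hn.2 this⟩)
  rw [one_mul] at key
  refine le_trans (le_of_eq ?_) key
  congr 1
  refine sum_congr rfl (fun n hn => ?_)
  rw [smul_smul]
  congr 1
  simp only [hm]
  rcases (hc n hn).eq_or_lt with h0 | h0
  · rw [← h0, mul_zero, max_eq_right (by linarith)]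
  · field_simp

/-- The soft-thresholding path. -/
noncomputable def path (B : Finset ℕ) (v : ℕ → Y) (a t : ℕ → ℝ) (k : ℕ) : Y :=
  ∑ n ∈ B, max (a n - t k) 0 • v n

theorem scalar_id (N : ℕ) (tp tq : ℕ → ℝ) (tl tk : ℝ) (hlk : tl ≤ tk)
    (hp : ∀ i < N, tk ≤ tp i) (hq : ∀ i < N, tq i ≤ tl) (φ : ℝ → ℝ)
    (hφ : ∀ s, φ s = ∑ i ∈ range N, (max (s - tq i) 0 - max (s - tp i) 0)) :
    (∀ s, 0 ≤ φ s) ∧ ∀ s, (N : ℝ) * (max (s - tl) 0 - max (s - tk) 0) =
      max (φ s - φ tl) 0 - max (φ s - φ tk) 0 := by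
  have hmono : ∀ s s', s ≤ s' → φ s ≤ φ s' := by
    intro s s' hs
    rw [hφ, hφ]
    refine sum_le_sum (fun i hi => ?_)
    have h1 := hp i (mem_range.mp hi)
    have h2 := hq i (mem_range.mp hi)
    simp only [max_def]
    split_ifs <;> linarith
  have hmid : ∀ s, tl ≤ s → s ≤ tk → φ s - φ tl = N * (s - tl) := by
    intro s h1 h2
    rw [hφ, hφ, ← sum_sub_distrib]
    have : ∀ i ∈ range N, (max (s - tq i) 0 - max (s - tp i) 0) -
        (max (tl - tq i) 0 - max (tl - tp i) 0) = s - tl := by
      intro i hi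
      have h3 := hp i (mem_range.mp hi)
      have h4 := hq i (mem_range.mp hi)
      rw [max_eq_left (by linarith), max_eq_right (by linarith), max_eq_left (by linarith),
        max_eq_right (by linarith)]
      ring
    rw [sum_congr rfl this, sum_const, card_range, nsmul_eq_mul]
  refine ⟨fun s => ?_, fun s => ?_⟩
  · rw [hφ]
    refine sum_nonneg (fun i hi => ?_)
    have h1 := hp i (mem_range.mp hi)
    have h2 := hq i (mem_range.mp hi)
    simp only [max_def]
    split_ifs <;> linarith
  · have h0 := hmono tl tk hlk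
    rcases le_total s tl with h1 | h1
    · have := hmono s tl h1
      rw [max_eq_right (by linarith), max_eq_right (by linarith), max_eq_right (by linarith),
        max_eq_right (by linarith)]
      simp
    · rcases le_total s tk with h2 | h2
      · have h3 := hmono tl s h1
        have h4 := hmono s tk h2
        rw [max_eq_left (by linarith), max_eq_right (by linarith), max_eq_left (by linarith),
          max_eq_right (by linarith), hmid s h1 h2]
        ring
      · have h3 := hmono tk s h2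
        rw [max_eq_left (by linarith), max_eq_left (by linarith), max_eq_left (by linarith),
          max_eq_left (by linarith)]
        have := hmid tk hlk le_rfl
        linarith

theorem dom_path {C : ℝ} (hC : 0 ≤ C) {B : Finset ℕ} {v : ℕ → Y} (h : FinQG C B v)
    (a t : ℕ → ℝ) (ht : Antitone t) : Dom (2 * C) (path B v a t) := by
  intro N k l p q hkl hp hq
  set φ : ℝ → ℝ := fun s => ∑ i ∈ range N, (max (s - t (q i)) 0 - max (s - t (p i)) 0) with hφ
  obtain ⟨h0, h1⟩ := scalar_id N (fun i => t (p i)) (fun i => t (q i)) (t l) (t k) (ht hkl)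
    (fun i hi => ht (hp i hi)) (fun i hi => ht (hq i hi)) φ (fun s => rfl)
  have e1 : ∑ i ∈ range N, (path B v a t (q i) - path B v a t (p i)) =
      ∑ n ∈ B, φ (a n) • v n := by
    simp only [path, hφ, ← sum_sub_distrib, ← sub_smul, sum_smul]
    exact sum_comm
  have e2 : (N : ℝ) • (path B v a t l - path B v a t k) =
      ∑ n ∈ B, max (φ (a n) - φ (t l)) 0 • v n - ∑ n ∈ B, max (φ (a n) - φ (t k)) 0 • v n := by
    simp only [path, ← sum_sub_distrib, ← sub_smul, smul_sum, smul_smul]
    exact sum_congr rfl (fun n _ => by rw [h1])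
  have e3 : (N : ℝ) * ‖path B v a t l - path B v a t k‖ =
      ‖(N : ℝ) • (path B v a t l - path B v a t k)‖ := by
    rw [norm_smul, Real.norm_of_nonneg (Nat.cast_nonneg N)]
  rw [e1, e3, e2]
  have b1 := soft hC h (fun n => φ (a n)) (fun n _ => h0 _) (h0 (t l))
  have b2 := soft hC h (fun n => φ (a n)) (fun n _ => h0 _) (h0 (t k))
  refine (norm_sub_le _ _).trans ?_
  linarith

/-- The indicator sum of a level set is dominated by the corresponding layer. -/
theorem level_le {C : ℝ} {B : Finset ℕ} {v : ℕ → Y} (h : FinQG C B v)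
    (a t : ℕ → ℝ) (k : ℕ) (ht : t (k + 1) ≤ t k) :
    (t k - t (k + 1)) * ‖∑ n ∈ B.filter (fun n => t k < a n), v n‖ ≤
      C * ‖path B v a t (k + 1) - path B v a t k‖ := by
  set c : ℕ → ℝ := fun n => max (a n - t (k + 1)) 0 - max (a n - t k) 0 with hc
  have hc0 : ∀ n, 0 ≤ c n := fun n => by
    simp only [hc, max_def]; split_ifs <;> linarith
  have hc1 : ∀ n, c n ≤ t k - t (k + 1) := fun n => by
    simp only [hc, max_def]; split_ifs <;> linarith
  have hc2 : ∀ n, t k < a n → c n = t k - t (k + 1) := fun n hn => by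
    simp only [hc]
    rw [max_eq_left (by linarith), max_eq_left (by linarith)]
    ring
  have e1 : path B v a t (k + 1) - path B v a t k = ∑ n ∈ B, c n • v n := by
    simp only [path, hc, ← sum_sub_distrib, ← sub_smul]
  have key := h c (fun n _ => hc0 n) (B.filter (fun n => t k < a n)) (filter_subset _ _)
    (fun n hn j _ _ => by
      rw [hc2 n (mem_filter.mp hn).2]; exact hc1 j)
  rw [e1]
  refine le_trans (le_of_eq ?_) key
  have e2 : ∑ n ∈ B.filter (fun n => t k < a n), c n • v n =
      (t k - t (k + 1)) • ∑ n ∈ B.filter (fun n => t k < a n), v n := by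
    rw [smul_sum]
    exact sum_congr rfl (fun n hn => by rw [hc2 n (mem_filter.mp hn).2])
  rw [e2, norm_smul, Real.norm_of_nonneg (sub_nonneg.mpr ht)]

/-- The finite form of the main estimate. -/
theorem finite_estimate [UniformConvexSpace Y] {C : ℝ} (hC : 0 < C) :
    ∃ (r : ℕ) (D : ℝ), 1 ≤ r ∧ 0 ≤ D ∧ ∀ (B : Finset ℕ) (v : ℕ → Y), FinQG C B v →
      ∀ (a : ℕ → ℝ) (τ : ℝ), 0 ≤ τ → (∀ n ∈ B, 0 ≤ a n) → (∀ n ∈ B, a n ≤ τ) → ∀ J : ℕ,
        ∑ k ∈ range J, (τ / 2 ^ k * ‖∑ n ∈ B.filter (fun n => τ / 2 ^ k < a n), v n‖) ^ r ≤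
          D * ‖∑ n ∈ B, a n • v n‖ ^ r := by
  obtain ⟨r, A, hr, hA, H⟩ := lower_estimate (Y := Y) (K := 2 * C) (by positivity)
  refine ⟨r, (2 * C) ^ r * A * C ^ r, hr, by positivity, fun B v h a τ hτ ha0 ha1 J => ?_⟩
  set t : ℕ → ℝ := fun k => τ / 2 ^ k with htdef
  have ht : Antitone t := by
    refine antitone_nat_of_succ_le (fun k => ?_)
    simp only [htdef]
    apply div_le_div_of_nonneg_left hτ (by positivity)
    rw [pow_succ]
    have : (0 : ℝ) < 2 ^ k := by positivity
    linarith
  have key := H _ (dom_path hC.le h a t ht) 0 J (Nat.zero_le _)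
  have h0 : path B v a t 0 = 0 := by
    refine sum_eq_zero (fun n hn => ?_)
    have := ha1 n hn
    simp only [htdef]
    rw [max_eq_right (by simp; linarith), zero_smul]
  rw [h0, sub_zero, ← range_eq_Ico] at key
  have h1 : ‖path B v a t J‖ ≤ C * ‖∑ n ∈ B, a n • v n‖ :=
    soft hC.le h a ha0 (by simp only [htdef]; positivity)
  calc ∑ k ∈ range J, (τ / 2 ^ k * ‖∑ n ∈ B.filter (fun n => τ / 2 ^ k < a n), v n‖) ^ r
      ≤ ∑ k ∈ range J, (2 * C) ^ r * ‖path B v a t (k + 1) - path B v a t k‖ ^ r := by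
        refine sum_le_sum (fun k _ => ?_)
        rw [← mul_pow]
        have h2 := level_le h a t k (ht (Nat.le_succ k))
        have h3 : t k - t (k + 1) = τ / 2 ^ k / 2 := by
          simp only [htdef]; rw [pow_succ]; field_simp; ring
        rw [h3] at h2
        refine pow_le_pow_left₀ (by positivity) ?_ _
        have h4 : t k = τ / 2 ^ k := rfl
        rw [h4] at h2
        linarith
    _ = (2 * C) ^ r * ∑ k ∈ range J, ‖path B v a t (k + 1) - path B v a t k‖ ^ r := by
        rw [mul_sum]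
    _ ≤ (2 * C) ^ r * (A * ‖path B v a t J‖ ^ r) := by gcongr
    _ ≤ (2 * C) ^ r * (A * (C * ‖∑ n ∈ B, a n • v n‖) ^ r) := by gcongr
    _ = _ := by rw [mul_pow]; ring

end Pool.Agent.H970Z.QG
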