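import Pool.Agent.H970Z.QG.Defs
import Pool.Agent.H970Z.QG.Layer

namespace Pool.Agent.H970Z.QG

open Finset Filter Topology

variable {𝕜 : Type*} [RCLike 𝕜] {X : Type*} [NormedAddCommGroup X] [NormedSpace 𝕜 X]

theorem dem_set_nonempty (x : ℕ → X) (m : ℕ) :
    {t : ℝ | ∃ (A : Finset ℕ) (ε : ℕ → 𝕜), m ≤ A.card ∧ (∀ n, ‖ε n‖ = 1) ∧
      t = ‖∑ n ∈ A, ε n • x n‖}.Nonempty :=
  ⟨_, range m, fun _ => 1, by simp, fun _ => norm_one, rfl⟩

theorem dem_set_bdd (x : ℕ → X) (m : ℕ) :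
    BddBelow {t : ℝ | ∃ (A : Finset ℕ) (ε : ℕ → 𝕜), m ≤ A.card ∧ (∀ n, ‖ε n‖ = 1) ∧
      t = ‖∑ n ∈ A, ε n • x n‖} :=
  ⟨0, by rintro t ⟨A, ε, -, -, rfl⟩; exact norm_nonneg _⟩

theorem lowerDem_nonneg (x : ℕ → X) (m : ℕ) : 0 ≤ lowerDem 𝕜 x m := by
  unfold lowerDem
  split_ifs
  · exact le_rfl
  · exact le_csInf (dem_set_nonempty x m) (by rintro t ⟨A, ε, -, -, rfl⟩; exact norm_nonneg _)

theorem lowerDem_le (x : ℕ → X) (A : Finset ℕ) (ε : ℕ → 𝕜) (hε : ∀ n, ‖ε n‖ = 1) :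
    lowerDem 𝕜 x A.card ≤ ‖∑ n ∈ A, ε n • x n‖ := by
  unfold lowerDem
  split_ifs
  · exact norm_nonneg _
  · exact csInf_le (dem_set_bdd x _) ⟨A, ε, le_rfl, hε, rfl⟩

theorem lowerDem_mono (x : ℕ → X) : Monotone (lowerDem 𝕜 x) := by
  refine monotone_nat_of_le_succ (fun m => ?_)
  by_cases hm : m = 0
  · subst hm
    have : lowerDem 𝕜 x 0 = 0 := by simp [lowerDem]
    rw [this]; exact lowerDem_nonneg x _
  · unfold lowerDem
    rw [if_neg hm, if_neg (Nat.succ_ne_zero m)]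
    refine csInf_le_csInf (dem_set_bdd x _) (dem_set_nonempty x _) ?_
    rintro t ⟨A, ε, h1, h2, h3⟩
    exact ⟨A, ε, by omega, h2, h3⟩

theorem primitive_lowerWeight (x : ℕ → X) (m : ℕ) :
    primitive (lowerWeight 𝕜 x) m = lowerDem 𝕜 x m := by
  induction m with
  | zero => simp [primitive, lowerDem]
  | succ m ih =>
    unfold primitive at ih ⊢
    rw [sum_Icc_succ_top (by omega), ih]
    simp [lowerWeight]

theorem coeff_tendsto {x : ℕ → X} {xs : ℕ → (X →L[𝕜] 𝕜)} (hb : IsBasis x xs) (f : X) :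
    Tendsto (fun n => ‖xs n f‖) atTop (𝓝 0) := by
  obtain ⟨M, hM⟩ := hb.bounded
  have hM0 : 0 ≤ M := (norm_nonneg _).trans (hM 0).1
  rw [Metric.tendsto_atTop]
  intro ε hε
  obtain ⟨g, hg, hfg⟩ := Metric.mem_closure_iff.mp (hb.dense f) (ε / (M + 1)) (by positivity)
  have hg' : ∀ᶠ n in atTop, xs n g = 0 := by
    refine Submodule.span_induction (p := fun g _ => ∀ᶠ n in atTop, xs n g = 0) ?_ ?_ ?_ ?_ hg
    · rintro _ ⟨k, rfl⟩
      filter_upwards [eventually_gt_atTop k] with n hn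
      rw [hb.biorth, if_neg hn.ne']
    · simp
    · intro u v _ _ hu hv
      filter_upwards [hu, hv] with n h1 h2
      rw [map_add, h1, h2, add_zero]
    · intro c u _ hu
      filter_upwards [hu] with n h1
      rw [map_smul, h1, smul_zero]
  obtain ⟨N, hN⟩ := eventually_atTop.mp hg'
  refine ⟨N, fun n hn => ?_⟩
  rw [Real.dist_eq, sub_zero, abs_of_nonneg (norm_nonneg _)]
  have e : xs n f = xs n (f - g) := by rw [map_sub, hN n hn, sub_zero]
  rw [e]
  rw [dist_eq_norm] at hfg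
  calc ‖xs n (f - g)‖ ≤ ‖xs n‖ * ‖f - g‖ := (xs n).le_opNorm _
    _ ≤ (M + 1) * ‖f - g‖ := by gcongr; linarith [(hM n).2]
    _ < (M + 1) * (ε / (M + 1)) := by gcongr
    _ = ε := by field_simp

theorem level_finite {x : ℕ → X} {xs : ℕ → (X →L[𝕜] 𝕜)} (hb : IsBasis x xs) (f : X) {t : ℝ}
    (ht : 0 < t) : {n : ℕ | t < ‖xs n f‖}.Finite := by
  obtain ⟨N, hN⟩ := eventually_atTop.mp ((coeff_tendsto hb f).eventually (gt_mem_nhds ht))
  refine (Set.finite_lt_nat N).subset (fun n hn => ?_)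
  by_contra hc
  have := hN n (not_lt.mp hc)
  exact lt_asymm this hn

/-- The dyadic estimate in `X`. -/
theorem dyadic_estimate {Y : Type*} [NormedAddCommGroup Y] [NormedSpace 𝕜 Y]
    [UniformConvexSpace Y] (T : X ≃L[𝕜] Y) {x : ℕ → X} {xs : ℕ → (X →L[𝕜] 𝕜)}
    (hb : IsBasis x xs) (hq : IsQuasiGreedy x xs) :
    ∃ (r : ℕ) (D : ℝ), 1 ≤ r ∧ 0 ≤ D ∧ ∀ (f : X) (τ : ℝ), 0 < τ → (∀ n, ‖xs n f‖ ≤ τ) → ∀ J : ℕ,
      ∑ k ∈ range J, (τ / 2 ^ k * lowerDem 𝕜 x {n : ℕ | τ / 2 ^ k < ‖xs n f‖}.ncard) ^ r ≤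
        (D * ‖f‖) ^ r := by
  classical
  let _ : NormedSpace ℝ Y := NormedSpace.restrictScalars ℝ 𝕜 Y
  have hsm : ∀ (c : ℝ) (y : Y), c • y = (c : 𝕜) • y := fun c y => rfl
  obtain ⟨C₀, hC₀⟩ := hq
  set C : ℝ := max C₀ 1 with hCdef
  have hC : 0 < C := lt_of_lt_of_le one_pos (le_max_right _ _)
  have hqg : ∀ (f : X) (A : Finset ℕ), IsGreedySet xs f A →
      ‖∑ n ∈ A, xs n f • x n‖ ≤ C * ‖f‖ := by
    intro f A hA
    rcases A.eq_empty_or_nonempty with rfl | hne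
    · simp only [sum_empty, norm_zero]; positivity
    · refine (hC₀ f A (card_pos.mpr hne) hA).trans ?_
      gcongr
      exact le_max_left _ _
  set P : ℝ := ‖(T : X →L[𝕜] Y)‖ + 1 with hP
  set Q : ℝ := ‖(T.symm : Y →L[𝕜] X)‖ + 1 with hQ
  have hP0 : 0 < P := by positivity
  have hQ0 : 0 < Q := by positivity
  have hT1 : ∀ u : X, ‖T u‖ ≤ P * ‖u‖ := fun u =>
    ((T : X →L[𝕜] Y).le_opNorm u).trans (by gcongr; linarith)
  have hT2 : ∀ u : X, ‖u‖ ≤ Q * ‖T u‖ := fun u => by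
    have := (T.symm : Y →L[𝕜] X).le_opNorm (T u)
    simp only [ContinuousLinearEquiv.coe_coe, ContinuousLinearEquiv.symm_apply_apply] at this
    exact this.trans (by gcongr; linarith)
  obtain ⟨r, D, hr, hD, H⟩ := finite_estimate (Y := Y) (C := P * C * Q) (by positivity)
  refine ⟨r, Q * (D + 1) * P * C, hr, by positivity, fun f τ hτ hfτ J => ?_⟩
  set ε : ℕ → 𝕜 := fun n => if xs n f = 0 then 1 else xs n f / (‖xs n f‖ : 𝕜) with hε
  have hε1 : ∀ n, ‖ε n‖ = 1 := fun n => by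
    simp only [hε]
    split_ifs with h
    · exact norm_one
    · rw [norm_div, RCLike.norm_ofReal, abs_norm, div_self (norm_ne_zero_iff.mpr h)]
  have hε2 : ∀ n, (‖xs n f‖ : 𝕜) * ε n = xs n f := fun n => by
    simp only [hε]
    split_ifs with h
    · rw [h]; simp
    · have : (‖xs n f‖ : 𝕜) ≠ 0 := by exact_mod_cast norm_ne_zero_iff.mpr h
      field_simp
  have hfin := level_finite hb f (show 0 < τ / 2 ^ J by positivity)
  set B := hfin.toFinset with hB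
  set v : ℕ → Y := fun n => T (ε n • x n) with hv
  have hlin : ∀ (A : Finset ℕ) (c : ℕ → ℝ),
      ∑ n ∈ A, c n • v n = T (∑ n ∈ A, ((c n : 𝕜) * ε n) • x n) := by
    intro A c
    rw [map_sum]
    refine sum_congr rfl (fun n _ => ?_)
    rw [hsm, hv, mul_smul, map_smul T (c n : 𝕜)]
  have hF : FinQG (P * C * Q) B v := by
    intro c hc A hAB hA
    set g : X := ∑ n ∈ B, ((c n : 𝕜) * ε n) • x n with hg
    have hcoef : ∀ k, xs k g = if k ∈ B then (c k : 𝕜) * ε k else 0 := by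
      intro k
      rw [hg, map_sum]
      simp only [map_smul, hb.biorth, smul_eq_mul, mul_ite, mul_one, mul_zero]
      rw [sum_ite_eq]
    have hnorm : ∀ k ∈ B, ‖xs k g‖ = c k := by
      intro k hk
      rw [hcoef, if_pos hk, norm_mul, hε1, mul_one, RCLike.norm_ofReal, abs_of_nonneg (hc k hk)]
    have hgr : IsGreedySet xs g A := by
      intro n hn k hk
      rw [hnorm n (hAB hn)]
      by_cases hkB : k ∈ B
      · rw [hnorm k hkB]; exact hA n hn k hkB hk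
      · rw [hcoef, if_neg hkB, norm_zero]; exact hc n (hAB hn)
    have h1 := hqg g A hgr
    have e : ∑ n ∈ A, xs n g • x n = ∑ n ∈ A, ((c n : 𝕜) * ε n) • x n :=
      sum_congr rfl (fun n hn => by rw [hcoef, if_pos (hAB hn)])
    rw [e] at h1
    rw [hlin, hlin, ← hg]
    calc _ ≤ P * ‖∑ n ∈ A, ((c n : 𝕜) * ε n) • x n‖ := hT1 _
      _ ≤ P * (C * ‖g‖) := by gcongr
      _ ≤ P * (C * (Q * ‖T g‖)) := by gcongr; exact hT2 g
      _ = _ := by ring
  have key := H B v hF (fun n => ‖xs n f‖) τ hτ.le (fun n _ => norm_nonneg _)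
    (fun n _ => hfτ n) J
  have hBg : IsGreedySet xs f B := by
    intro n hn k hk
    rw [hB, Set.Finite.mem_toFinset] at hn hk
    exact (not_lt.mp hk).trans (le_of_lt hn)
  have h2 : ‖∑ n ∈ B, ‖xs n f‖ • v n‖ ≤ P * (C * ‖f‖) := by
    rw [hlin B (fun n => ‖xs n f‖)]
    refine (hT1 _).trans ?_
    simp only [hε2]
    gcongr
    exact hqg f B hBg
  have h3 : ∀ k ∈ range J,
      (τ / 2 ^ k * lowerDem 𝕜 x {n : ℕ | τ / 2 ^ k < ‖xs n f‖}.ncard) ^ r ≤
      Q ^ r * (τ / 2 ^ k * ‖∑ n ∈ B.filter (fun n => τ / 2 ^ k < ‖xs n f‖), v n‖) ^ r := by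
    intro k hk
    rw [← mul_pow]
    have hl := lowerDem_nonneg (𝕜 := 𝕜) x {n : ℕ | τ / 2 ^ k < ‖xs n f‖}.ncard
    refine pow_le_pow_left₀ (by positivity) ?_ _
    have e : {n : ℕ | τ / 2 ^ k < ‖xs n f‖} =
        (B.filter (fun n => τ / 2 ^ k < ‖xs n f‖) : Finset ℕ) := by
      ext n
      simp only [Set.mem_ofPred_eq, coe_filter, hB, Set.Finite.mem_toFinset]
      refine ⟨fun h => ⟨lt_of_le_of_lt ?_ h, h⟩, fun h => h.2⟩
      apply div_le_div_of_nonneg_left hτ.le (by positivity)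
      exact pow_le_pow_right₀ one_le_two (mem_range.mp hk).le
    rw [e, Set.ncard_coe_finset]
    have h4 := lowerDem_le x (B.filter (fun n => τ / 2 ^ k < ‖xs n f‖)) ε hε1
    have h5 := hT2 (∑ n ∈ B.filter (fun n => τ / 2 ^ k < ‖xs n f‖), ε n • x n)
    rw [map_sum] at h5
    have h6 : 0 ≤ τ / 2 ^ k := by positivity
    calc _ ≤ τ / 2 ^ k * (Q * ‖∑ n ∈ B.filter (fun n => τ / 2 ^ k < ‖xs n f‖), v n‖) := by
          gcongr
          exact h4.trans h5
      _ = _ := by ring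
  have hD1 : D ≤ (D + 1) ^ r := by
    calc D ≤ (D + 1) ^ 1 := by linarith
      _ ≤ (D + 1) ^ r := pow_le_pow_right₀ (by linarith) hr
  calc _ ≤ ∑ k ∈ range J,
        Q ^ r * (τ / 2 ^ k * ‖∑ n ∈ B.filter (fun n => τ / 2 ^ k < ‖xs n f‖), v n‖) ^ r :=
        sum_le_sum h3
    _ ≤ Q ^ r * (D * ‖∑ n ∈ B, ‖xs n f‖ • v n‖ ^ r) := by
        rw [← mul_sum]; gcongr
    _ ≤ Q ^ r * ((D + 1) ^ r * (P * (C * ‖f‖)) ^ r) := by gcongr
    _ = _ := by simp only [mul_pow]; ring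

theorem rearr_nonneg (a : ℕ → 𝕜) (m : ℕ) : 0 ≤ rearr a m :=
  Real.sInf_nonneg (fun _ ht => ht.1)

theorem rearr_le (a : ℕ → 𝕜) (m : ℕ) {t : ℝ} (ht : 0 ≤ t)
    (h : {n : ℕ | t < ‖a n‖}.encard < (m : ℕ∞)) : rearr a m ≤ t :=
  csInf_le ⟨0, fun _ hs => hs.1⟩ ⟨ht, h⟩

theorem sum_weight_le (s : ℕ → ℝ) (hs : Monotone s) (hs0 : s 0 = 0) (p N M : ℕ) :
    ∑ m ∈ range N, (if m + 1 ≤ M then s (m + 1) ^ p * (s (m + 1) - s m) else 0) ≤
      s M ^ (p + 1) := by
  have h0 : ∀ m, 0 ≤ s m := fun m => hs0 ▸ hs (Nat.zero_le m)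
  have h1 : ∀ N, ∑ m ∈ range N, (if m + 1 ≤ M then s (m + 1) ^ p * (s (m + 1) - s m) else 0) ≤
      s M ^ p * s (min N M) := by
    intro N
    induction N with
    | zero => simp [hs0]
    | succ N ih =>
      rw [sum_range_succ]
      split_ifs with h
      · rw [min_eq_left (by omega : N ≤ M)] at ih
        rw [min_eq_left h]
        have h2 : s (N + 1) ^ p ≤ s M ^ p := pow_le_pow_left₀ (h0 _) (hs h) p
        have h3 : 0 ≤ s (N + 1) - s N := sub_nonneg.mpr (hs (Nat.le_succ N))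
        nlinarith
      · rw [min_eq_right (by omega : M ≤ N)] at ih
        rw [min_eq_right (by omega : M ≤ N + 1)]
        linarith
  refine (h1 N).trans ?_
  rw [pow_succ]
  have := h0 M
  gcongr
  exact hs (min_le_right _ _)

theorem main {Y : Type*} [NormedAddCommGroup Y] [NormedSpace 𝕜 Y]
    [UniformConvexSpace Y] (T : X ≃L[𝕜] Y) {x : ℕ → X} {xs : ℕ → (X →L[𝕜] 𝕜)}
    (hb : IsBasis x xs) (hq : IsQuasiGreedy x xs) :
    ∃ r : ℝ, 1 ≤ r ∧ ∃ C : ℝ, ∀ f : X,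
      lorentzNorm (lowerWeight 𝕜 x) r (fun n => xs n f) ≤ ENNReal.ofReal (C * ‖f‖) := by
  obtain ⟨r, D, hr, hD, H⟩ := dyadic_estimate T hb hq
  obtain ⟨p, rfl⟩ : ∃ p, r = p + 1 := ⟨r - 1, by omega⟩
  obtain ⟨M, hM⟩ := hb.bounded
  have hM0 : 0 ≤ M := (norm_nonneg _).trans (hM 0).1
  refine ⟨((p + 1 : ℕ) : ℝ), by exact_mod_cast hr, 2 * D, fun f => ?_⟩
  set τ : ℝ := M * ‖f‖ + 1 with hτdef
  have hτ : 0 < τ := by positivity
  have hfτ : ∀ n, ‖xs n f‖ ≤ τ := fun n => by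
    have h1 := (xs n).le_opNorm f
    have h2 : ‖xs n‖ * ‖f‖ ≤ M * ‖f‖ := by gcongr; exact (hM n).2
    linarith
  set s : ℕ → ℝ := lowerDem 𝕜 x with hsdef
  have hs : Monotone s := lowerDem_mono x
  have hs0 : s 0 = 0 := by simp [hsdef, lowerDem]
  have hsn : ∀ m, 0 ≤ s m := lowerDem_nonneg x
  set a : ℕ → 𝕜 := fun n => xs n f with ha
  set Nk : ℕ → ℕ := fun k => {n : ℕ | τ / 2 ^ k < ‖xs n f‖}.ncard with hNk
  have hterm : ∀ m : ℕ, rearr a (m + 1) ^ ((p + 1 : ℕ) : ℝ) *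
      primitive (lowerWeight 𝕜 x) (m + 1) ^ (((p + 1 : ℕ) : ℝ) - 1) * lowerWeight 𝕜 x (m + 1) =
      rearr a (m + 1) ^ (p + 1) * (s (m + 1) ^ p * (s (m + 1) - s m)) := by
    intro m
    have e : (((p + 1 : ℕ) : ℝ) - 1) = (p : ℝ) := by push_cast; ring
    rw [e, Real.rpow_natCast, Real.rpow_natCast, primitive_lowerWeight, mul_assoc]
    rfl
  have hw : ∀ m, 0 ≤ s (m + 1) ^ p * (s (m + 1) - s m) := fun m =>
    mul_nonneg (pow_nonneg (hsn _) _) (sub_nonneg.mpr (hs (Nat.le_succ m)))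
  have hev : ∀ m : ℕ, ∀ᶠ J in atTop, rearr a (m + 1) ^ (p + 1) ≤
      ∑ k ∈ range J, (if m + 1 ≤ Nk k then (2 * (τ / 2 ^ k)) ^ (p + 1) else 0) := by
    intro m
    have hnn : ∀ k, 0 ≤ (if m + 1 ≤ Nk k then (2 * (τ / 2 ^ k)) ^ (p + 1) else 0) := by
      intro k; split_ifs <;> positivity
    rcases (rearr_nonneg a (m + 1)).eq_or_lt with h0 | h0
    · refine Eventually.of_forall (fun J => ?_)
      rw [← h0, zero_pow (by omega)]
      exact sum_nonneg (fun k _ => hnn k)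
    · have hex : ∃ k : ℕ, τ / 2 ^ k < rearr a (m + 1) := by
        obtain ⟨k, hk⟩ := pow_unbounded_of_one_lt (τ / rearr a (m + 1)) (one_lt_two (α := ℝ))
        refine ⟨k, ?_⟩
        rw [div_lt_iff₀ h0] at hk
        rw [div_lt_iff₀ (by positivity)]
        linarith
      classical
      set k := Nat.find hex with hk
      have hk1 : τ / 2 ^ k < rearr a (m + 1) := Nat.find_spec hex
      have htop : rearr a (m + 1) ≤ τ := by
        refine rearr_le a _ hτ.le ?_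
        have : {n : ℕ | τ < ‖a n‖} = ∅ := by
          ext n
          simp only [Set.mem_ofPred_eq, Set.mem_empty_iff_false, iff_false, not_lt]
          exact hfτ n
        rw [this, Set.encard_empty]
        exact_mod_cast Nat.succ_pos m
      have hk2 : rearr a (m + 1) ≤ 2 * (τ / 2 ^ k) := by
        rcases Nat.eq_zero_or_pos k with h | h
        · rw [h]; simp; linarith
        · obtain ⟨j, hj⟩ : ∃ j, k = j + 1 := ⟨k - 1, by omega⟩
          have := Nat.find_min hex (show j < Nat.find hex by rw [← hk]; omega)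
          rw [hj, pow_succ]
          refine (not_lt.mp this).trans (le_of_eq ?_)
          field_simp
      have hk3 : m + 1 ≤ Nk k := by
        by_contra hc
        have hfin := level_finite hb f (show 0 < τ / 2 ^ k by positivity)
        have := rearr_le a (m + 1) (show 0 ≤ τ / 2 ^ k by positivity) (by
          rw [← hfin.cast_ncard_eq]
          exact Nat.cast_lt.mpr (not_le.mp hc))
        linarith
      filter_upwards [eventually_gt_atTop k] with J hJ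
      refine le_trans ?_ (single_le_sum (fun k _ => hnn k) (mem_range.mpr hJ))
      rw [if_pos hk3]
      exact pow_le_pow_left₀ h0.le hk2 _
  have hpart : ∀ N : ℕ, ∑ m ∈ range N,
      rearr a (m + 1) ^ (p + 1) * (s (m + 1) ^ p * (s (m + 1) - s m)) ≤
      (2 * D * ‖f‖) ^ (p + 1) := by
    intro N
    obtain ⟨J, hJ⟩ := ((eventually_all_finset (range N)).mpr (fun m _ => hev m)).exists
    calc _ ≤ ∑ m ∈ range N, (∑ k ∈ range J,
          (if m + 1 ≤ Nk k then (2 * (τ / 2 ^ k)) ^ (p + 1) else 0)) *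
            (s (m + 1) ^ p * (s (m + 1) - s m)) :=
          sum_le_sum (fun m hm => mul_le_mul_of_nonneg_right (hJ m hm) (hw m))
      _ = ∑ k ∈ range J, (2 * (τ / 2 ^ k)) ^ (p + 1) * ∑ m ∈ range N,
          (if m + 1 ≤ Nk k then s (m + 1) ^ p * (s (m + 1) - s m) else 0) := by
          simp only [sum_mul, mul_sum]
          rw [sum_comm]
          refine sum_congr rfl (fun k _ => sum_congr rfl (fun m _ => ?_))
          split_ifs <;> simp
      _ ≤ ∑ k ∈ range J, (2 * (τ / 2 ^ k)) ^ (p + 1) * s (Nk k) ^ (p + 1) := by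
          refine sum_le_sum (fun k _ => ?_)
          exact mul_le_mul_of_nonneg_left (sum_weight_le s hs hs0 p N (Nk k)) (by positivity)
      _ = 2 ^ (p + 1) * ∑ k ∈ range J, (τ / 2 ^ k * s (Nk k)) ^ (p + 1) := by
          rw [mul_sum]
          refine sum_congr rfl (fun k _ => ?_)
          simp only [mul_pow]; ring
      _ ≤ 2 ^ (p + 1) * (D * ‖f‖) ^ (p + 1) := by
          gcongr
          exact H f τ hτ hfτ J
      _ = _ := by simp only [mul_pow]; ring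
  unfold lorentzNorm
  simp only [hterm]
  have hts : ∑' m : ℕ, ENNReal.ofReal
      (rearr a (m + 1) ^ (p + 1) * (s (m + 1) ^ p * (s (m + 1) - s m))) ≤
      ENNReal.ofReal (2 * D * ‖f‖) ^ (p + 1) := by
    refine ENNReal.tsum_le_of_sum_range_le (fun N => ?_)
    rw [← ENNReal.ofReal_sum_of_nonneg
      (fun m _ => mul_nonneg (pow_nonneg (rearr_nonneg a _) _) (hw m)),
      ← ENNReal.ofReal_pow (by positivity)]
    exact ENNReal.ofReal_le_ofReal (hpart N)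
  refine (ENNReal.rpow_le_rpow hts (by positivity)).trans (le_of_eq ?_)
  rw [one_div, ENNReal.pow_rpow_inv_natCast (by omega)]

end Pool.Agent.H970Z.QG
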